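import Mathlib
import Pool.Agent.Lib.MP_e30c56_lc.ClosureTR
import Pool.Agent.Lib.HypVec.ThreeCol

/-!
# MP_e30c56_lc: the triangle criterion (TR) and targets without two independent edges

Every 3-regular acyclic Borel graph has a Borel homomorphism to every finite graph with (TR).  For
finite graphs `H` in which any two edges are joined by an edge, `H` is in `A` iff it is in `A_hyp`
iff it is not 3-colourable.
-/

open MeasureTheory Set Pool.Agent.E30

namespace Pool.Agent.Results.MP_e30c56_lc.ClosureCriterion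

universe u w

/-- `G` is hyperfinite: it is the union of an increasing sequence of Borel graphs all of whose
connected components are finite. -/
def Hyperfinite {V : Type u} [MeasurableSpace V] (G : SimpleGraph V) : Prop :=
  ∃ G' : ℕ → SimpleGraph V, (∀ n, MeasurableSet {p : V × V | (G' n).Adj p.1 p.2}) ∧
    (∀ n, G' n ≤ G' (n + 1)) ∧ (∀ n (C : (G' n).ConnectedComponent), C.supp.Finite) ∧
    ∀ x y, G.Adj x y ↔ ∃ n, (G' n).Adj x y

/-- The class A of the problem: every 3-regular acyclic Borel graph on a standard Borel space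
has a Borel homomorphism to `H`. -/
def InA {W : Type w} (H : SimpleGraph W) : Prop :=
  ∀ (V : Type u) [MeasurableSpace V] [StandardBorelSpace V] (G : SimpleGraph V),
    MeasurableSet {p : V × V | G.Adj p.1 p.2} → (∀ x, (G.neighborSet x).ncard = 3) →
    G.IsAcyclic →
    ∃ f : V → W, (∀ a, MeasurableSet (f ⁻¹' {a})) ∧ ∀ x y, G.Adj x y → H.Adj (f x) (f y)

/-- The class A_hyp of the problem: every 3-regular acyclic hyperfinite Borel graph on a standard
Borel space has a Borel homomorphism to `H`. -/
def InAhyp {W : Type w} (H : SimpleGraph W) : Prop :=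
  ∀ (V : Type u) [MeasurableSpace V] [StandardBorelSpace V] (G : SimpleGraph V),
    MeasurableSet {p : V × V | G.Adj p.1 p.2} → (∀ x, (G.neighborSet x).ncard = 3) →
    G.IsAcyclic → Hyperfinite G →
    ∃ f : V → W, (∀ a, MeasurableSet (f ⁻¹' {a})) ∧ ∀ x y, G.Adj x y → H.Adj (f x) (f y)

private theorem inA_of_TR {W : Type w} [Finite W] {H : SimpleGraph W} (h : TR H) : InA.{u} H := by
  intro V _ _ G hm hr hac
  let _ : MeasurableSpace W := ⊤
  have : MeasurableSingletonClass W := ⟨fun _ => trivial⟩
  obtain ⟨m, ⟨S⟩⟩ := scheme_of_TR h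
  obtain ⟨f, hf, hfa⟩ := S.exists_hom (G := G) ⟨hm, hr⟩ hac
  exact ⟨f, fun a => hf (measurableSet_singleton a), hfa⟩

private theorem inAhyp_of_inA {W : Type w} {H : SimpleGraph W} (h : InA.{u} H) : InAhyp.{u} H :=
  fun V _ _ G hm hr hac _ => h V G hm hr hac

private theorem not_inAhyp {W : Type w} [Finite W] {H : SimpleGraph W} (h3 : H.Colorable 3) :
    ¬ InAhyp.{u} H := by
  intro h
  obtain ⟨V, m1, m2, G, G', h1, h2, h3', h4, h5, h6, h7, h8⟩ :=
    HypVec.exists_graph_no_three_colouring.{u}
  obtain ⟨f, hf, hfa⟩ := h V G h1 h2 h3' ⟨G', h4, h5, h6, h7⟩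
  obtain ⟨C⟩ := h3
  obtain ⟨x, y, hxy, he⟩ := h8 (fun x => C (f x)) (by
    intro i
    have e : (fun x => C (f x)) ⁻¹' {i} = ⋃ a ∈ {a : W | C a = i}, f ⁻¹' {a} := by
      ext x
      simp
    rw [e]
    exact MeasurableSet.biUnion (Set.to_countable _) fun a _ => hf a)
  exact C.valid (hfa x y hxy) he

/-- (1) Every finite graph with (TR) is in `A`.  (2) For a finite graph in which any two edges are
joined by an edge, the classes `A` and `A_hyp` agree, and membership means that the graph is not
3-colourable.  (3) Every graph with a triangle-connected subgraph which is not 3-colourable has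
(TR). -/
theorem result {W : Type w} [Finite W] (H : SimpleGraph W) :
    (TR H → InA.{u} H) ∧
    (TwoK2Free H → (InA.{u} H ↔ InAhyp.{u} H) ∧ (InAhyp.{u} H ↔ ¬ H.Colorable 3)) ∧
    (∀ K ≤ H, TriangleConnected K → ¬ K.Colorable 3 → TR H) := by
  refine ⟨inA_of_TR, fun h2 => ⟨⟨inAhyp_of_inA, fun h => ?_⟩, fun h hc => not_inAhyp hc h, fun h =>
    inAhyp_of_inA (inA_of_TR (TR_of_twoK2Free h2 h))⟩, fun K hKH hK h3 =>
    TR_of_triangleConnected hKH hK h3⟩
  exact inA_of_TR (TR_of_twoK2Free h2 fun hc => not_inAhyp hc h)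

end Pool.Agent.Results.MP_e30c56_lc.ClosureCriterion
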