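import Mathlib
import Pool.Agent.Lib.HypVec.Families
import Pool.Agent.Lib.HypVec.Thin
import Pool.Agent.Lib.HypVec.ThinWalk
import Pool.Agent.Lib.HypVec.U27
import Pool.Agent.Lib.HypVec.U27Thin

/-!
# MP_e30c56_lc: three families of vertex sets for every member of A_hyp

There is one 3-regular acyclic hyperfinite Borel graph such that every finite graph which receives
a Borel homomorphism from it has three families of vertex sets with the properties (1) to (3) of
`HasFamilies`. Hence no member of A_hyp is a union of three thin sets.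
-/

namespace Pool.Agent.Results.MP_e30c56_lc.Families

universe w

/-- Hyperfinite: an increasing union of component finite Borel graphs on the same vertex set. -/
def Hyperfinite {V : Type} [MeasurableSpace V] (G : SimpleGraph V) : Prop :=
  ∃ G' : ℕ → SimpleGraph V, (∀ n, MeasurableSet {p : V × V | (G' n).Adj p.1 p.2}) ∧
    (∀ n, G' n ≤ G' (n + 1)) ∧ (∀ n (C : (G' n).ConnectedComponent), C.supp.Finite) ∧
    ∀ x y, G.Adj x y ↔ ∃ n, (G' n).Adj x y

/-- The class A_hyp of the problem: every 3-regular acyclic hyperfinite Borel graph on a standard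
Borel space has a Borel homomorphism to `H`. -/
def InAHyp {W : Type w} (H : SimpleGraph W) : Prop :=
  ∀ (V : Type) [MeasurableSpace V] [StandardBorelSpace V] (G : SimpleGraph V),
    MeasurableSet {p : V × V | G.Adj p.1 p.2} → (∀ x, (G.neighborSet x).ncard = 3) →
    G.IsAcyclic → Hyperfinite G →
    ∃ f : V → W, (∀ a, MeasurableSet (f ⁻¹' {a})) ∧ ∀ x y, G.Adj x y → H.Adj (f x) (f y)

/-- Three families of vertex sets of `H`: (1) each family is closed under supersets; (2) for every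
cover of the vertex set by three sets `B 0`, `B 1`, `B 2` some `B i` is in the `i`-th family; (3) any
two members (equal or not) of the same family are joined by an edge of `H`. -/
def HasFamilies {W : Type w} (H : SimpleGraph W) : Prop :=
  ∃ F : Fin 3 → Set (Set W), (∀ i S S', S ∈ F i → S ⊆ S' → S' ∈ F i) ∧
    (∀ B : Fin 3 → Set W, (∀ a, ∃ i, a ∈ B i) → ∃ i, B i ∈ F i) ∧
    (∀ i S S', S ∈ F i → S' ∈ F i → ∃ a ∈ S, ∃ b ∈ S', H.Adj a b)

/-- Thin sets of vertices: independent sets are thin, and `P` is thin if all neighbours of the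
vertices of `P` lie in the union of two thin sets. -/
inductive Thin {W : Type w} (H : SimpleGraph W) : Set W → Prop
  | indep (S : Set W) : (∀ a ∈ S, ∀ b ∈ S, ¬ H.Adj a b) → Thin H S
  | sep (A B P : Set W) : Thin H A → Thin H B → (∀ a ∈ P, ∀ b, H.Adj a b → b ∈ A ∪ B) → Thin H P

/-- The vertex set is the union of three thin sets. -/
def ThinCover {W : Type w} (H : SimpleGraph W) : Prop :=
  ∃ A B C : Set W, Thin H A ∧ Thin H B ∧ Thin H C ∧ ∀ a, a ∈ A ∨ a ∈ B ∨ a ∈ C

/-- The graph on the 27 triples `(u 0, u 1, u 2)` over {0, 1, 2} in which two triples are adjacent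
unless one of the seven listed things holds (for `u, v` or for `v, u`). -/
def U27 : SimpleGraph (Fin 3 × Fin 3 × Fin 3) where
  Adj u v := ∀ p ∈ [(u, v), (v, u)], ¬ ((p.1.1 = 2 ∧ p.2.1 = 2) ∨ (p.1.2.1 = 1 ∧ p.2.2.1 = 1) ∨
    (p.1.2.1 = 2 ∧ p.2.2.1 = 2) ∨ (p.1.2.2 = 1 ∧ p.2.2.2 = 1) ∨ (p.1.2.2 = 2 ∧ p.2.2.2 = 2) ∨
    (p.1.1 = 0 ∧ p.2.2.1 = 0) ∨ (p.1.1 = 1 ∧ p.2.2.2 = 0))
  symm := ⟨fun u v h p hp => h p (by simpa [or_comm] using hp)⟩
  loopless := ⟨by decide⟩

theorem thin_of {W : Type w} {H : SimpleGraph W} {S : Set W} (h : _root_.HypVec.Thin H S) :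
    Thin H S := by
  induction h with
  | indep S h => exact .indep S h
  | sep A B P _ _ h ihA ihB => exact .sep A B P ihA ihB h

theorem thin_to {W : Type w} {H : SimpleGraph W} {S : Set W} (h : Thin H S) :
    _root_.HypVec.Thin H S := by
  induction h with
  | indep S h => exact .indep S h
  | sep A B P _ _ h ihA ihB => exact .sep A B P ihA ihB h

theorem thinCover_of {W : Type w} {H : SimpleGraph W} (h : _root_.HypVec.ThinCover H) :
    ThinCover H := by
  obtain ⟨A, B, C, hA, hB, hC, hc⟩ := h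
  exact ⟨A, B, C, thin_of hA, thin_of hB, thin_of hC, hc⟩

theorem ThinCover.not_hasFamilies {W : Type w} {H : SimpleGraph W} (h : ThinCover H) :
    ¬ HasFamilies H := by
  rintro ⟨F, -, h2, h3⟩
  obtain ⟨A, B, C, hA, hB, hC, hc⟩ := h
  exact (thin_to hC).not_mem h2 h3 0 (_root_.HypVec.mem_of_cover h2
    ((thin_to hA).not_mem h2 h3) ((thin_to hB).not_mem h2 h3) hc 0)

theorem U27_eq : U27 = _root_.HypVec.U27G.U27 := by
  ext u v
  show (∀ p ∈ [(u, v), (v, u)], _) ↔ _ ∧ _
  simp only [List.mem_cons, List.not_mem_nil, or_false, forall_eq_or_imp, forall_eq]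
  exact Iff.rfl

theorem result :
    (∃ (Z : Type) (_ : MeasurableSpace Z) (_ : StandardBorelSpace Z) (G : SimpleGraph Z),
      MeasurableSet {p : Z × Z | G.Adj p.1 p.2} ∧ (∀ z, (G.neighborSet z).ncard = 3) ∧
      G.IsAcyclic ∧ Hyperfinite G ∧
      ∀ (W : Type w) [Finite W] (H : SimpleGraph W),
        (∃ f : Z → W, (∀ a, MeasurableSet (f ⁻¹' {a})) ∧ ∀ x y, G.Adj x y → H.Adj (f x) (f y)) →
        HasFamilies H) ∧
    (∀ (W : Type w) [Finite W] (H : SimpleGraph W), InAHyp H → HasFamilies H) ∧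
    (∀ (W : Type w) [Finite W] (H : SimpleGraph W), ThinCover H →
      ¬ HasFamilies H ∧ ¬ InAHyp H) ∧
    (∀ (W : Type w) [Finite W] (H : SimpleGraph W) (r m : ℕ) (c : W → Fin m), m ≤ 3 * 2 ^ r →
      (∀ a b (p : H.Walk a b), p.length = 2 * r + 1 → c a ≠ c b) → ThinCover H) ∧
    (ThinCover U27 ∧ ¬ InAHyp U27 ∧ ¬ U27.Colorable 4 ∧ ¬ U27.CliqueFree 3 ∧
      ¬ ∃ R R' : Set (Fin 3 × Fin 3 × Fin 3), (∀ x ∈ R, ∀ y ∈ R', ¬ U27.Adj x y) ∧
        (U27.induce Rᶜ).Colorable 2 ∧ (U27.induce R'ᶜ).Colorable 2) := by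
  obtain ⟨K⟩ := _root_.HypVec.exists_keys
  obtain ⟨h1, h2, h3, h4⟩ := HypVec.uSys_facts K
  have key : ∀ {W' : Type w} [Finite W'] (H : SimpleGraph W'),
      (∃ f : HypVec.UX K → W', (∀ a, MeasurableSet (f ⁻¹' {a})) ∧
        ∀ x y, (HypVec.uSys K).gr.Adj x y → H.Adj (f x) (f y)) → HasFamilies H := by
    intro W' _ H hex
    obtain ⟨f, hf, hfa⟩ := hex
    exact HypVec.uSys_families K H.Adj f hf hfa
  have key0 : ∀ {W' : Type} [Finite W'] (H : SimpleGraph W'), InAHyp H → HasFamilies H := by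
    intro W' _ H hH
    obtain ⟨f, hf, hfa⟩ := hH (HypVec.UX K) (HypVec.uSys K).gr h1 h2 h3 h4
    exact HypVec.uSys_families K H.Adj f hf hfa
  refine ⟨⟨HypVec.UX K, inferInstance, inferInstance, (HypVec.uSys K).gr, h1, h2, h3, h4,
    fun W' _ H => key H⟩, ?_, ?_, ?_, ?_⟩
  · intro W' _ H hH
    exact key H (hH (HypVec.UX K) (HypVec.uSys K).gr h1 h2 h3 h4)
  · intro W' _ H hT
    refine ⟨hT.not_hasFamilies, fun hH => ?_⟩
    exact hT.not_hasFamilies (key H (hH (HypVec.UX K) (HypVec.uSys K).gr h1 h2 h3 h4))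
  · intro W' _ H r m c hm hc
    exact thinCover_of (_root_.HypVec.thinCover_of_coloring H r m c hm hc)
  · have hT : ThinCover U27 := by
      rw [U27_eq]
      exact thinCover_of _root_.HypVec.U27G.thinCover_U27
    refine ⟨hT, fun hH => hT.not_hasFamilies (key0 U27 hH), ?_, ?_, ?_⟩
    · rw [U27_eq]
      exact _root_.HypVec.U27G.not_colorable_four
    · rw [U27_eq]
      exact _root_.HypVec.U27G.not_cliqueFree_three
    · rw [U27_eq]
      exact _root_.HypVec.U27G.not_almost

end Pool.Agent.Results.MP_e30c56_lc.Families
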