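import Mathlib
import Pool.Agent.Lib.HypF.UnionHom
import Pool.Agent.Lib.HypF.Chif

/-!
# MP_e30c56_lc: the first moment obstruction transfers to hyperfinite forests

Every finite `H` in A_hyp passes the first moment test of random cubic graphs, also for families of
coarse-grainings.
-/

namespace Pool.Agent.Results.MP_e30c56_lc.FirstMoment

/-- Hyperfinite: an increasing union of component finite Borel graphs on the same vertex set. -/
def Hyperfinite {V : Type} [MeasurableSpace V] (G : SimpleGraph V) : Prop :=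
  ∃ G' : ℕ → SimpleGraph V, (∀ n, MeasurableSet {p : V × V | (G' n).Adj p.1 p.2}) ∧
    (∀ n, G' n ≤ G' (n + 1)) ∧ (∀ n (C : (G' n).ConnectedComponent), C.supp.Finite) ∧
    ∀ x y, G.Adj x y ↔ ∃ n, (G' n).Adj x y

/-- The class A_hyp of the problem: every 3-regular acyclic hyperfinite Borel graph on a standard
Borel space has a Borel homomorphism to `H`. -/
def InAHyp {W : Type} (H : SimpleGraph W) : Prop :=
  ∀ (V : Type) [MeasurableSpace V] [StandardBorelSpace V] (G : SimpleGraph V),
    MeasurableSet {p : V × V | G.Adj p.1 p.2} → (∀ x, (G.neighborSet x).ncard = 3) →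
    G.IsAcyclic → Hyperfinite G →
    ∃ f : V → W, (∀ a, MeasurableSet (f ⁻¹' {a})) ∧ ∀ x y, G.Adj x y → H.Adj (f x) (f y)

/-- Symmetric probability on the ordered edges of `H`. -/
def EdgeLaw {W : Type} [Fintype W] (H : SimpleGraph W) (q : W → W → ℝ) : Prop :=
  (∀ a b, 0 ≤ q a b) ∧ (∀ a b, q a b = q b a) ∧ ∑ a, ∑ b, q a b = 1 ∧
    ∀ a b, ¬ H.Adj a b → q a b = 0

/-- Shannon entropy of the image under `φ` of the vertex marginal of `q`. -/
noncomputable def vertexEntropy {W C : Type} [Fintype W] [Fintype C] [DecidableEq C]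
    (φ : W → C) (q : W → W → ℝ) : ℝ :=
  ∑ c, Real.negMulLog (∑ a with φ a = c, ∑ b, q a b)

/-- Shannon entropy of the image under `φ × φ` of `q`. -/
noncomputable def edgeEntropy {W C : Type} [Fintype W] [Fintype C] [DecidableEq C]
    (φ : W → C) (q : W → W → ℝ) : ℝ :=
  ∑ c, ∑ c', Real.negMulLog (∑ a with φ a = c, ∑ b with φ b = c', q a b)

theorem result :
    (∃ (Z : Type) (_ : MeasurableSpace Z) (_ : StandardBorelSpace Z) (G : SimpleGraph Z),
      MeasurableSet {p : Z × Z | G.Adj p.1 p.2} ∧ (∀ z, (G.neighborSet z).ncard = 3) ∧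
      G.IsAcyclic ∧ Hyperfinite G ∧
      ∀ (W : Type) [Fintype W] (H : SimpleGraph W),
        (∃ f : Z → W, (∀ a, MeasurableSet (f ⁻¹' {a})) ∧ ∀ x y, G.Adj x y → H.Adj (f x) (f y)) →
        ∀ (T C : Type) [Fintype T] [Fintype C] [DecidableEq C] (φ : T → W → C) (m : T → ℝ),
          (∀ t, 0 ≤ m t) → ∃ q : W → W → ℝ, EdgeLaw H q ∧
            ∑ t, m t * (2 * vertexEntropy (φ t) q) ≤
              ∑ t, m t * (3 / 2 * edgeEntropy (φ t) q)) ∧
    ∀ {W : Type} (H : SimpleGraph W) (n k : ℕ) (c : W → Finset (Fin n)), Finite W → 0 < k →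
      (∀ a, k ≤ (c a).card) → (∀ a b, H.Adj a b → Disjoint (c a) (c b)) → 157 * n ≤ 342 * k →
      ¬ InAHyp H := by
  classical
  obtain ⟨K⟩ := _root_.HypVec.exists_keys
  obtain ⟨h1, h2, h3, h4⟩ := HypVec.uSys_facts K
  refine ⟨⟨HypVec.UX K, inferInstance, inferInstance, (HypVec.uSys K).gr, h1, h2, h3, h4, ?_⟩, ?_⟩
  · intro W _ H hex T C _ _ _ φ m hm
    obtain ⟨f, hf, hfa⟩ := hex
    by_contra hcon
    push Not at hcon
    let _ : MeasurableSpace W := ⊤
    have hfm : Measurable f := by
      refine measurable_to_countable' fun a => hf a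
    refine HypF.uSys_no_hom K H.Adj (C := fun _ => C) φ m hm ?_ f hfm hfa
    intro q hq hs
    have h := hcon q ⟨hq.1, hq.2.1, hq.2.2, hs⟩
    have e : HypF.entFun (C := fun _ => C) φ m q =
        2 * (∑ t, m t * (2 * vertexEntropy (φ t) q) - ∑ t, m t * (3 / 2 * edgeEntropy (φ t) q)) := by
      rw [← Finset.sum_sub_distrib, Finset.mul_sum]
      refine Finset.sum_congr rfl fun t _ => ?_
      simp only [vertexEntropy, edgeEntropy]
      ring
    rw [e]
    linarith
  · intro W H n k c hfin hk hc hd hnk hH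
    haveI := Fintype.ofFinite W
    obtain ⟨f, hf, hfa⟩ := hH (HypVec.UX K) (HypVec.uSys K).gr h1 h2 h3 h4
    let _ : MeasurableSpace W := ⊤
    have hfm : Measurable f := by
      refine measurable_to_countable' fun a => hf a
    refine HypF.uSys_no_hom K H.Adj (C := fun _ => Bool) _ _ ?_
      (HypF.star_of_setColouring_num H c hk hc hd (by simpa using hnk)) f hfm hfa
    intro t
    positivity

end Pool.Agent.Results.MP_e30c56_lc.FirstMoment
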