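import Mathlib
import Pool.Agent.Lib.HypVec.UnionVec

/-!
# MP_e30c56_lc: members of A_hyp have vector chromatic number at least `1 + 3 / (2 √2)`

There is one 3-regular acyclic hyperfinite Borel graph which has no Borel map to the unit sphere of
any `ℝ^D` with inner products at most `-c` along the edges, for any `c > 2 √2 / 3`.
-/

open scoped RealInnerProductSpace

namespace Pool.Agent.Results.MP_e30c56_lc.VectorChromatic

universe w

/-- Hyperfinite: an increasing union of component finite Borel graphs on the same vertex set. -/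
def Hyperfinite {V : Type} [MeasurableSpace V] (G : SimpleGraph V) : Prop :=
  ∃ G' : ℕ → SimpleGraph V, (∀ n, MeasurableSet {p : V × V | (G' n).Adj p.1 p.2}) ∧
    (∀ n, G' n ≤ G' (n + 1)) ∧ (∀ n (C : (G' n).ConnectedComponent), C.supp.Finite) ∧
    ∀ x y, G.Adj x y ↔ ∃ n, (G' n).Adj x y

/-- The class A_hyp of the problem: every 3-regular acyclic hyperfinite Borel graph on a standard
Borel space has a Borel homomorphism to `H`. -/
def InAHyp {W : Type w} (H : SimpleGraph W) : Prop :=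
  ∀ (V : Type) [MeasurableSpace V] [StandardBorelSpace V] (G : SimpleGraph V),
    MeasurableSet {p : V × V | G.Adj p.1 p.2} → (∀ x, (G.neighborSet x).ncard = 3) →
    G.IsAcyclic → Hyperfinite G →
    ∃ f : V → W, (∀ a, MeasurableSet (f ⁻¹' {a})) ∧ ∀ x y, G.Adj x y → H.Adj (f x) (f y)

theorem result :
    (∃ (Z : Type) (_ : MeasurableSpace Z) (_ : StandardBorelSpace Z) (G : SimpleGraph Z),
      MeasurableSet {p : Z × Z | G.Adj p.1 p.2} ∧ (∀ z, (G.neighborSet z).ncard = 3) ∧
      G.IsAcyclic ∧ Hyperfinite G ∧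
      ∀ (D : ℕ) (c : ℝ) (u : Z → EuclideanSpace ℝ (Fin D)), 2 * Real.sqrt 2 / 3 < c →
        Measurable u → (∀ z, ‖u z‖ = 1) → ∃ z z', G.Adj z z' ∧ - c < ⟪u z, u z'⟫) ∧
    ∀ {W : Type w} [Finite W] (H : SimpleGraph W) (D : ℕ) (c : ℝ)
      (v : W → EuclideanSpace ℝ (Fin D)), 2 * Real.sqrt 2 / 3 < c → (∀ a, ‖v a‖ = 1) →
      (∀ a b, H.Adj a b → ⟪v a, v b⟫ ≤ - c) → ¬ InAHyp H := by
  obtain ⟨K⟩ := _root_.HypVec.exists_keys
  obtain ⟨h1, h2, h3, h4⟩ := HypVec.uSys_facts K
  refine ⟨⟨HypVec.UX K, inferInstance, inferInstance, (HypVec.uSys K).gr, h1, h2, h3, h4, ?_⟩, ?_⟩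
  · intro D c u hc hu hn
    have h := HypVec.uSys_no_vec K u hu hn hc
    push Not at h
    obtain ⟨z, z', hz, hz'⟩ := h
    exact ⟨z, z', hz, hz'⟩
  · intro W _ H D c v hc hv hadj hH
    obtain ⟨f, hf, hfa⟩ := hH (HypVec.UX K) (HypVec.uSys K).gr h1 h2 h3 h4
    let _ : MeasurableSpace W := ⊤
    have hfm : Measurable f := by
      refine measurable_to_countable' fun a => hf a
    exact HypVec.uSys_no_vec K (fun z => v (f z)) ((measurable_from_top).comp hfm)
      (fun z => hv _) hc fun z z' hz => hadj _ _ (hfa z z' hz)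

end Pool.Agent.Results.MP_e30c56_lc.VectorChromatic
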